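import Pool.Agent.Run7.h909.NC.Tree
import Pool.Agent.Run7.h909.GT.Ord

/-!
# Degree functions on rings of fractions

Owner helper909.
-/

set_option autoImplicit false
set_option linter.unusedSectionVars false

open Pool.Agent.Y110.FJ (ClosedE)

namespace Run7.h909.NC

open Run7.h909.GT Run7.h909.UG Matrix

section frac

variable {R D : Type} [Ring R] [DivisionRing D] {deg : R → WithBot ℤ}

/-- every element of `D` is a left fraction of elements of `R` -/
structure LFrac (j : R →+* D) : Prop where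
  inj : Function.Injective j
  frac : ∀ x : D, ∃ s r : R, s ≠ 0 ∧ j s * x = j r

theorem LFrac.ne {j : R →+* D} (hj : LFrac j) {s : R} (hs : s ≠ 0) : j s ≠ 0 := fun e =>
  hs ((map_eq_zero_iff j hj.inj).1 e)

theorem LFrac.nt {j : R →+* D} (hj : LFrac j) : Nontrivial R := ⟨0, 1, fun e => by
  have h1 := congrArg j e
  rw [map_zero, map_one] at h1
  exact zero_ne_one h1⟩

/-- the Ore condition -/
theorem LFrac.ore {j : R →+* D} (hj : LFrac j) (r : R) {t : R} (ht : t ≠ 0) :
    ∃ a c : R, a ≠ 0 ∧ a * r = c * t := by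
  obtain ⟨a, c, ha, hac⟩ := hj.frac (j r * (j t)⁻¹)
  refine ⟨a, c, ha, hj.inj ?_⟩
  rw [map_mul, map_mul, ← hac, ← mul_assoc, mul_assoc _ (j t)⁻¹, inv_mul_cancel₀ (hj.ne ht), mul_one]

theorem fin_of_ne (h : IsDegN deg) {s : R} (hs : s ≠ 0) : ∃ n : ℤ, deg s = (n : WithBot ℤ) := by
  obtain ⟨n, hn⟩ := WithBot.ne_bot_iff_exists.1 (fun e => hs ((h.bot _).1 e))
  exact ⟨n, hn.symm⟩

theorem cancel_eq {y : ℤ} {X Y : WithBot ℤ} (h : (y : WithBot ℤ) + X = y + Y) : X = Y :=
  le_antisymm (cancel_le h.le) (cancel_le h.ge)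

/-- the degree of a fraction -/
noncomputable def fdeg (deg : R → WithBot ℤ) (s r : R) : WithBot ℤ :=
  deg r + ((-(deg s).unbotD 0 : ℤ) : WithBot ℤ)

theorem fdeg_add (h : IsDegN deg) {s : R} (hs : s ≠ 0) (r : R) : deg s + fdeg deg s r = deg r := by
  obtain ⟨n, hn⟩ := fin_of_ne h hs
  unfold fdeg
  rw [hn]
  show (n : WithBot ℤ) + (deg r + ((-n : ℤ) : WithBot ℤ)) = deg r
  rw [add_left_comm, ← WithBot.coe_add, add_neg_cancel, WithBot.coe_zero, add_zero]

theorem fdeg_unique (h : IsDegN deg) {s : R} (hs : s ≠ 0) (r : R) {X : WithBot ℤ}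
    (hX : deg s + X = deg r) : fdeg deg s r = X := by
  obtain ⟨n, hn⟩ := fin_of_ne h hs
  have h1 := fdeg_add h hs r
  rw [← hX, hn] at h1
  exact cancel_eq h1

theorem fdeg_wd (h : IsDegN deg) {j : R →+* D} (hj : LFrac j) {s r s' r' : R} {x : D}
    (hs : s ≠ 0) (hs' : s' ≠ 0) (h1 : j s * x = j r) (h2 : j s' * x = j r') :
    fdeg deg s r = fdeg deg s' r' := by
  obtain ⟨a, c, ha, hac⟩ := hj.ore s hs'
  have h3 : a * r = c * r' := by
    apply hj.inj
    rw [map_mul, map_mul, ← h1, ← h2, ← mul_assoc, ← mul_assoc, ← map_mul, ← map_mul, hac]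
  have h4 := congrArg deg hac
  have h5 := congrArg deg h3
  rw [h.mul, h.mul] at h4 h5
  have hc : c ≠ 0 := by
    rintro rfl
    rw [zero_mul] at hac
    have h6 := congrArg deg hac
    rw [h.mul, h.zero, WithBot.add_eq_bot, h.bot, h.bot] at h6
    rcases h6 with h6 | h6
    · exact ha h6
    · exact hs h6
  obtain ⟨na, hna⟩ := fin_of_ne h ha
  obtain ⟨nc, hnc⟩ := fin_of_ne h hc
  obtain ⟨ns, hns⟩ := fin_of_ne h hs
  obtain ⟨ns', hns'⟩ := fin_of_ne h hs'
  refine fdeg_unique h hs r ?_
  rw [hna, hnc] at h5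
  rw [hna, hnc, hns, hns', ← WithBot.coe_add, ← WithBot.coe_add, WithBot.coe_inj] at h4
  have h6 := fdeg_add h hs' r'
  refine cancel_eq (y := na) ?_
  rw [h5, ← h6, hns, hns', ← add_assoc, ← add_assoc, ← WithBot.coe_add, ← WithBot.coe_add, h4]

/-- **degree functions extend to the division ring of fractions** -/
theorem ext_deg (h : IsDegN deg) {j : R →+* D} (hj : LFrac j) :
    ∃ d : D → WithBot ℤ, IsDegN d ∧ ∀ r, d (j r) = deg r := by
  have hnt := hj.nt
  choose S r hS hSr using hj.frac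
  have key : ∀ (x : D) (s t : R), s ≠ 0 → j s * x = j t → fdeg deg (S x) (r x) = fdeg deg s t :=
    fun x s t hs hst => fdeg_wd h hj (hS x) hs (hSr x) hst
  refine ⟨fun x => fdeg deg (S x) (r x), ⟨?_, ?_, ?_⟩, ?_⟩
  · intro x
    have h1 := fdeg_add h (hS x) (r x)
    constructor
    · intro e
      rw [e, WithBot.add_bot] at h1
      have h2 := (h.bot _).1 h1.symm
      have h3 := hSr x
      rw [h2, map_zero, mul_eq_zero] at h3
      exact h3.resolve_left (hj.ne (hS x))
    · rintro rfl
      have h3 := hSr 0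
      rw [mul_zero] at h3
      have h4 : r 0 = 0 := (map_eq_zero_iff j hj.inj).1 h3.symm
      show fdeg deg (S 0) (r 0) = ⊥
      unfold fdeg
      rw [h4, h.zero, WithBot.bot_add]
  · intro x y
    obtain ⟨a, c, ha, hac⟩ := hj.ore (r x) (hS y)
    have h1 : a * S x ≠ 0 := by
      intro e
      have h6 := congrArg deg e
      rw [h.mul, h.zero, WithBot.add_eq_bot, h.bot, h.bot] at h6
      rcases h6 with h6 | h6
      · exact ha h6
      · exact hS x h6
    have h2 : j (a * S x) * (x * y) = j (c * r y) := by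
      calc j (a * S x) * (x * y) = j a * (j (S x) * x) * y := by
            rw [map_mul]
            simp only [mul_assoc]
        _ = j (a * r x) * y := by rw [hSr x, map_mul]
        _ = j c * (j (S y) * y) := by rw [hac, map_mul, mul_assoc]
        _ = j (c * r y) := by rw [hSr y, map_mul]
    show fdeg deg (S (x * y)) (r (x * y)) = _
    rw [key _ _ _ h1 h2]
    refine fdeg_unique h h1 _ ?_
    have h3 := fdeg_add h (hS x) (r x)
    have h4 := fdeg_add h (hS y) (r y)
    have h5 := congrArg deg hac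
    rw [h.mul, h.mul, ← h3] at h5
    rw [h.mul, h.mul, ← h4]
    calc deg a + deg (S x) + (fdeg deg (S x) (r x) + fdeg deg (S y) (r y)) =
        deg a + (deg (S x) + fdeg deg (S x) (r x)) + fdeg deg (S y) (r y) := by ac_rfl
      _ = deg c + deg (S y) + fdeg deg (S y) (r y) := by rw [h5]
      _ = _ := by ac_rfl
  · intro x y
    obtain ⟨a, c, ha, hac⟩ := hj.ore (S x) (hS y)
    have h1 : a * S x ≠ 0 := by
      intro e
      have h6 := congrArg deg e
      rw [h.mul, h.zero, WithBot.add_eq_bot, h.bot, h.bot] at h6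
      rcases h6 with h6 | h6
      · exact ha h6
      · exact hS x h6
    have h2 : j (a * S x) * (x + y) = j (a * r x + c * r y) := by
      rw [mul_add]
      nth_rewrite 2 [hac]
      rw [map_add, map_mul, map_mul, map_mul, map_mul, ← hSr y, ← hSr x]
      simp only [mul_assoc]
    show fdeg deg (S (x + y)) (r (x + y)) ≤ _
    rw [key _ _ _ h1 h2]
    obtain ⟨n, hn⟩ := fin_of_ne h h1
    refine cancel_le (y := n) ?_
    rw [← hn, fdeg_add h h1, add_max]
    refine (h.add _ _).trans (le_of_eq ?_)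
    have h3 := fdeg_add h (hS x) (r x)
    have h4 := fdeg_add h (hS y) (r y)
    congr 1
    · rw [h.mul, h.mul]
      nth_rewrite 1 [← h3]
      exact (add_assoc _ _ _).symm
    · rw [hac, h.mul, h.mul]
      nth_rewrite 1 [← h4]
      exact (add_assoc _ _ _).symm
  · intro t
    have h1 : j 1 * j t = j t := by rw [map_one, one_mul]
    show fdeg deg (S (j t)) (r (j t)) = deg t
    rw [key _ 1 t one_ne_zero h1]
    refine fdeg_unique h one_ne_zero _ ?_
    rw [h.one, zero_add]

open scoped nonZeroDivisors in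
/-- Ore domains -/
theorem ore_frac (R : Type) [Ring R] [Nontrivial R] [NoZeroDivisors R]
    [OreLocalization.OreSet R⁰] :
    LFrac (OreLocalization.numeratorRingHom : R →+* OreLocalization R⁰ R) where
  inj := OreLocalization.numeratorHom_inj inf_le_left
  frac x := by
    induction x using OreLocalization.ind with | _ r s
    refine ⟨s, r, nonZeroDivisors.coe_ne_zero s, ?_⟩
    show (s : R) /ₒ (1 : R⁰) * (r /ₒ s) = r /ₒ 1
    exact OreLocalization.mul_cancel

end frac

end Run7.h909.NC
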