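import Pool.Agent.Run7.h909.UG.Form

/-!
# The tree of `GL_2` of a division ring with a degree function

Owner helper909.
-/

set_option autoImplicit false

open Pool.Agent.Y110.FJ (ClosedE)

namespace Run7.h909.NC

open Run7.h909.GT Run7.h909.UG

/-- a degree function on a ring: minus a valuation with integral values -/
structure IsDegN {R : Type} [Ring R] (deg : R → WithBot ℤ) : Prop where
  bot : ∀ x, deg x = ⊥ ↔ x = 0
  mul : ∀ x y, deg (x * y) = deg x + deg y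
  add : ∀ x y, deg (x + y) ≤ max (deg x) (deg y)

section ring

variable {R : Type} [Ring R] {deg : R → WithBot ℤ}

namespace IsDegN

theorem zero (h : IsDegN deg) : deg 0 = ⊥ := (h.bot 0).2 rfl

theorem one (h : IsDegN deg) [Nontrivial R] : deg 1 = 0 := by
  have h1 := h.mul 1 1
  rw [mul_one] at h1
  have h2 : deg 1 ≠ ⊥ := fun e => one_ne_zero ((h.bot 1).1 e)
  obtain ⟨n, hn⟩ := WithBot.ne_bot_iff_exists.1 h2
  rw [← hn, ← WithBot.coe_add, WithBot.coe_inj] at h1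
  rw [← hn]
  have : n = 0 := by omega
  rw [this]
  rfl

theorem neg_one (h : IsDegN deg) [Nontrivial R] : deg (-1) = 0 := by
  have h1 := h.mul (-1) (-1)
  rw [neg_mul_neg, mul_one, h.one] at h1
  have h2 : deg (-1) ≠ ⊥ := fun e => (neg_ne_zero.2 one_ne_zero) ((h.bot (-1 : R)).1 e)
  obtain ⟨n, hn⟩ := WithBot.ne_bot_iff_exists.1 h2
  rw [← hn, ← WithBot.coe_add, ← WithBot.coe_zero, WithBot.coe_inj] at h1
  rw [← hn]
  have : n = 0 := by omega
  rw [this]
  rfl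

theorem neg (h : IsDegN deg) [Nontrivial R] (x : R) : deg (-x) = deg x := by
  rw [← neg_one_mul, h.mul, h.neg_one, zero_add]

theorem sub (h : IsDegN deg) [Nontrivial R] (x y : R) : deg (x - y) ≤ max (deg x) (deg y) := by
  rw [sub_eq_add_neg]
  have h1 := h.add x (-y)
  rwa [h.neg] at h1

theorem sub_comm (h : IsDegN deg) [Nontrivial R] (x y : R) : deg (x - y) = deg (y - x) := by
  rw [← h.neg, neg_sub]

end IsDegN

end ring

section dv

variable {D : Type} [DivisionRing D] {deg : D → WithBot ℤ}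

open Classical in
/-- the degree of the Dieudonne determinant of two columns -/
noncomputable def dl (deg : D → WithBot ℤ) (u w : Fin 2 → D) : WithBot ℤ :=
  if u 0 = 0 then deg (u 1) + deg (w 0) else deg (u 0) + deg (w 1 - u 1 * (u 0)⁻¹ * w 0)

variable (h : IsDegN deg)
include h

theorem inv_deg {x : D} (hx : x ≠ 0) : deg x + deg x⁻¹ = 0 := by
  rw [← h.mul, mul_inv_cancel₀ hx, h.one]

omit h in
theorem dl_left {u : Fin 2 → D} (hu : u 0 = 0) (w : Fin 2 → D) :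
    dl deg u w = deg (u 1) + deg (w 0) := by
  unfold dl
  rw [if_pos hu]

omit h in
theorem dl_ne {u : Fin 2 → D} (hu : u 0 ≠ 0) (w : Fin 2 → D) :
    dl deg u w = deg (u 0) + deg (w 1 - u 1 * (u 0)⁻¹ * w 0) := by
  unfold dl
  rw [if_neg hu]

theorem dl_right (u : Fin 2 → D) {w : Fin 2 → D} (hw : w 0 = 0) :
    dl deg u w = deg (u 0) + deg (w 1) := by
  by_cases hu : u 0 = 0
  · rw [dl_left hu, hw, hu, h.zero, WithBot.add_bot, WithBot.bot_add]
  · rw [dl_ne hu, hw, mul_zero, sub_zero]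

/-- finite slopes -/
theorem dl_fin {u w : Fin 2 → D} (hu : u 0 ≠ 0) (hw : w 0 ≠ 0) :
    dl deg u w = deg (u 0) + deg (w 0) + deg (w 1 * (w 0)⁻¹ - u 1 * (u 0)⁻¹) := by
  rw [dl_ne hu, add_assoc]
  congr 1
  rw [add_comm, ← h.mul, sub_mul, inv_mul_cancel_right₀ hw]

theorem dl_symm (u w : Fin 2 → D) : dl deg u w = dl deg w u := by
  by_cases hu : u 0 = 0
  · rw [dl_left hu, dl_right h w hu, add_comm]
  by_cases hw : w 0 = 0
  · rw [dl_left hw, dl_right h u hw, add_comm]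
  rw [dl_fin h hu hw, dl_fin h hw hu, h.sub_comm, add_comm (deg (u 0))]

theorem tri (b c e : Fin 2 → D) :
    deg (b 0) + dl deg c e ≤ max (deg (c 0) + dl deg b e) (deg (e 0) + dl deg b c) := by
  by_cases hb : b 0 = 0
  · rw [hb, h.zero, WithBot.bot_add]
    exact bot_le
  by_cases hc : c 0 = 0
  · rw [dl_left hc, dl_right h b hc]
    refine le_max_of_le_right (le_of_eq ?_)
    ac_rfl
  by_cases he : e 0 = 0
  · rw [dl_right h c he, dl_right h b he]
    refine le_max_of_le_left (le_of_eq ?_)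
    ac_rfl
  rw [dl_fin h hc he, dl_fin h hb he, dl_fin h hb hc]
  have h1 : deg (e 1 * (e 0)⁻¹ - c 1 * (c 0)⁻¹) ≤
      max (deg (e 1 * (e 0)⁻¹ - b 1 * (b 0)⁻¹)) (deg (c 1 * (c 0)⁻¹ - b 1 * (b 0)⁻¹)) := by
    refine le_trans (le_of_eq ?_) (h.sub _ _)
    rw [sub_sub_sub_cancel_right]
  calc deg (b 0) + (deg (c 0) + deg (e 0) + deg (e 1 * (e 0)⁻¹ - c 1 * (c 0)⁻¹))
      ≤ deg (b 0) + (deg (c 0) + deg (e 0) +
        max (deg (e 1 * (e 0)⁻¹ - b 1 * (b 0)⁻¹)) (deg (c 1 * (c 0)⁻¹ - b 1 * (b 0)⁻¹))) :=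
        add_le_add le_rfl (add_le_add le_rfl h1)
    _ = max (deg (b 0) + (deg (c 0) + deg (e 0) + deg (e 1 * (e 0)⁻¹ - b 1 * (b 0)⁻¹)))
        (deg (b 0) + (deg (c 0) + deg (e 0) + deg (c 1 * (c 0)⁻¹ - b 1 * (b 0)⁻¹))) := by
        rw [add_max, add_max]
    _ ≤ _ := le_of_eq (by
        congr 1
        · ac_rfl
        · ac_rfl)

/-- **Ptolemy** -/
theorem ptol (a b c e : Fin 2 → D) :
    dl deg a b + dl deg c e ≤ max (dl deg a c + dl deg b e) (dl deg a e + dl deg b c) := by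
  by_cases ha : a 0 = 0
  · have h1 := add_le_add (le_refl (deg (a 1))) (tri h b c e)
    rw [add_max] at h1
    rw [dl_left ha, dl_left ha, dl_left ha]
    refine le_trans (le_of_eq (by ac_rfl)) (h1.trans (le_of_eq ?_))
    congr 1
    · ac_rfl
    · ac_rfl
  by_cases hb : b 0 = 0
  · have h1 := add_le_add (le_refl (deg (b 1))) (tri h a c e)
    rw [add_max] at h1
    rw [dl_right h a hb, dl_left hb, dl_left hb]
    refine le_trans (le_of_eq (by ac_rfl)) (h1.trans (le_of_eq ?_))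
    rw [max_comm]
    congr 1
    · ac_rfl
    · ac_rfl
  by_cases hc : c 0 = 0
  · have h1 := add_le_add (le_refl (deg (c 1))) (tri h e a b)
    rw [add_max, dl_symm h e b, dl_symm h e a] at h1
    rw [dl_left hc, dl_right h a hc, dl_right h b hc]
    refine le_trans (le_of_eq (by ac_rfl)) (h1.trans (le_of_eq ?_))
    congr 1
    · ac_rfl
    · ac_rfl
  by_cases he : e 0 = 0
  · have h1 := add_le_add (le_refl (deg (e 1))) (tri h c a b)
    rw [add_max, dl_symm h c b, dl_symm h c a] at h1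
    rw [dl_right h c he, dl_right h b he, dl_right h a he]
    refine le_trans (le_of_eq (by ac_rfl)) (h1.trans (le_of_eq ?_))
    rw [max_comm]
    congr 1
    · ac_rfl
    · ac_rfl
  rw [dl_fin h ha hb, dl_fin h hc he, dl_fin h ha hc, dl_fin h hb he, dl_fin h ha he,
    dl_fin h hb hc]
  have key : ∀ u v w : D, deg (w - u) ≤ max (deg (v - u)) (deg (w - v)) := by
    intro u v w
    refine le_trans (le_of_eq ?_) (h.add _ _)
    congr 1
    abel
  have h1 := um4 (ab := deg (b 1 * (b 0)⁻¹ - a 1 * (a 0)⁻¹)) (ac := deg (c 1 * (c 0)⁻¹ - a 1 * (a 0)⁻¹))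
    (ae := deg (e 1 * (e 0)⁻¹ - a 1 * (a 0)⁻¹)) (bc := deg (c 1 * (c 0)⁻¹ - b 1 * (b 0)⁻¹))
    (be := deg (e 1 * (e 0)⁻¹ - b 1 * (b 0)⁻¹)) (ce := deg (e 1 * (e 0)⁻¹ - c 1 * (c 0)⁻¹))
    (by rw [h.sub_comm (c 1 * (c 0)⁻¹) (b 1 * (b 0)⁻¹)]; exact key _ _ _)
    (by rw [h.sub_comm (e 1 * (e 0)⁻¹) (b 1 * (b 0)⁻¹)]; exact key _ _ _)
    (by rw [h.sub_comm (c 1 * (c 0)⁻¹) (a 1 * (a 0)⁻¹)]; exact key _ _ _)
    (by rw [h.sub_comm (c 1 * (c 0)⁻¹) (b 1 * (b 0)⁻¹)]; exact key _ _ _)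
  have h2 := add_le_add (le_refl (deg (a 0) + deg (b 0) + deg (c 0) + deg (e 0))) h1
  rw [add_max] at h2
  refine le_trans (le_of_eq (by ac_rfl)) (h2.trans (le_of_eq ?_))
  congr 1
  · ac_rfl
  · ac_rfl

end dv

end Run7.h909.NC
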