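import Pool.Agent.Run7.h909.NC.Ore
import Pool.Agent.Run7.h909.UG.Lf

/-!
# `GL_2` of noncommutative rings with a degree function

Owner helper909.
-/

set_option autoImplicit false
set_option linter.unusedSectionVars false

open Pool.Agent.Y110.FJ (ClosedE)

namespace Run7.h909.NC

open Run7.h909.GT Run7.h909.UG Matrix

variable {C : ∀ (G : Type) [Group G], Prop}

section ring

variable {R D : Type} [Ring R] [DivisionRing D] {deg : R → WithBot ℤ}

/-- **detection by homomorphisms to other rings** -/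
theorem det_mem' (hC : ClosedE C) {d : D → WithBot ℤ} (hd : IsDegN d) {j : R →+* D}
    (hj : Function.Injective j) (h0 : ∀ x, x ≠ 0 → 0 ≤ d (j x))
    (hP : ∀ n : ℕ, ∃ (B : Type) (_ : Ring B) (φ : R →+* B), C (M2 B)ˣ ∧
      ∀ x, d (j x) ≤ n → φ x = 0 → x = 0) : C (M2 R)ˣ := by
  have hnt : Nontrivial R := ⟨0, 1, fun e => by
    have h1 := congrArg j e
    rw [map_zero, map_one] at h1
    exact zero_ne_one h1⟩
  refine nc_rep hd hC (Units.map (j.mapMatrix : M2 R →+* M2 D).toMonoidHom) fun n => ?_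
  obtain ⟨B, _, φ, hB, hφ⟩ := hP n
  refine ⟨_, _, Units.map (φ.mapMatrix : M2 R →+* M2 B).toMonoidHom, hB, fun g hg hg1 => ?_⟩
  have h1 : ∃ a b, (g⁻¹).1 a b ≠ 0 := by
    by_contra hcon
    push Not at hcon
    have h2 : (g⁻¹).1 = 0 := by
      ext i j
      exact hcon i j
    have h3 := Units.mul_inv g
    rw [h2, mul_zero] at h3
    exact one_ne_zero h3.symm
  obtain ⟨a, b, hab⟩ := h1
  have h2 : ∀ i k, d (j (g.1 i k)) ≤ n := by
    intro i k
    have h3 := hg i k a b
    have h4 : (Units.map (j.mapMatrix : M2 R →+* M2 D).toMonoidHom g).1 i k = j (g.1 i k) := rfl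
    have h5 : (Units.map (j.mapMatrix : M2 R →+* M2 D).toMonoidHom g⁻¹).1 a b =
      j ((g⁻¹).1 a b) := rfl
    rw [h4, h5] at h3
    exact (le_add_of_nonneg_right (h0 _ hab)).trans h3
  have h6 : (φ.mapMatrix : M2 R →+* M2 B) g.1 = 1 := congrArg Units.val hg1
  apply Units.ext
  rw [Units.val_one]
  ext i k
  have h3 : (g.1 - 1) i k = 0 := by
    refine hφ _ ?_ ?_
    · rw [Matrix.sub_apply, map_sub]
      refine (hd.sub _ _).trans (max_le (h2 i k) ?_)
      rw [Matrix.one_apply]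
      split_ifs
      · rw [map_one, hd.one]
        exact_mod_cast Nat.zero_le n
      · rw [map_zero, hd.zero]
        exact bot_le
    · have h7 : (φ.mapMatrix : M2 R →+* M2 B) (g.1 - 1) = 0 := by
        rw [map_sub, h6, map_one, sub_self]
      exact congrFun (congrFun h7 i) k
  rw [Matrix.sub_apply, sub_eq_zero] at h3
  exact h3

/-- **detection by homomorphisms to other rings**, for rings with a division ring of left fractions -/
theorem det_mem (hC : ClosedE C) (h : IsDegN deg) {j : R →+* D} (hj : LFrac j)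
    (h0 : ∀ x, x ≠ 0 → 0 ≤ deg x)
    (hP : ∀ n : ℕ, ∃ (B : Type) (_ : Ring B) (φ : R →+* B), C (M2 B)ˣ ∧
      ∀ x, deg x ≤ n → φ x = 0 → x = 0) : C (M2 R)ˣ := by
  obtain ⟨d, hd, hdj⟩ := ext_deg h hj
  refine det_mem' hC hd hj.inj (fun x hx => ?_) fun n => ?_
  · rw [hdj]
    exact h0 x hx
  · obtain ⟨B, i1, φ, hB, hφ⟩ := hP n
    refine ⟨B, i1, φ, hB, fun x hx => hφ x ?_⟩
    rw [← hdj]
    exact hx

/-- powers of an ideal -/
theorem mat_pow (hC : ClosedE C) (hsol : ∀ (S : Type) [Group S], Group.IsSolvable S → C S)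
    (J : Ideal R) [J.IsTwoSided] (hJ : C (M2 (R ⧸ J))ˣ) (k : ℕ) : C (M2 (R ⧸ J ^ (k + 1)))ˣ := by
  induction k with
  | zero =>
    have e : J ^ (0 + 1) ≤ J := by rw [zero_add, Submodule.pow_one]
    refine hC.base.of_injective _ _ (Units.map ((Ideal.Quotient.factor e).mapMatrix :
      M2 (R ⧸ J ^ (0 + 1)) →+* M2 (R ⧸ J)).toMonoidHom) ?_ hJ
    refine Units.map_injective ?_
    intro x y hxy
    ext i k
    have h1 : Function.Injective (Ideal.Quotient.factor e) := by
      rw [injective_iff_map_eq_zero]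
      intro x
      obtain ⟨a, rfl⟩ := Ideal.Quotient.mk_surjective x
      intro hx
      rw [Ideal.Quotient.factor_mk, Ideal.Quotient.eq_zero_iff_mem] at hx
      rw [Ideal.Quotient.eq_zero_iff_mem, zero_add, Submodule.pow_one]
      exact hx
    exact h1 (congrFun (congrFun hxy i) k)
  | succ k ih =>
    have e : J ^ (k + 1 + 1) ≤ J ^ (k + 1) := Ideal.pow_le_pow_right (Nat.le_succ _)
    refine sqz' hC hsol ((Ideal.Quotient.factor e).mapMatrix :
      M2 (R ⧸ J ^ (k + 1 + 1)) →+* M2 (R ⧸ J ^ (k + 1))) ?_ ih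
    have key : ∀ x y : R ⧸ J ^ (k + 1 + 1), Ideal.Quotient.factor e x = 0 →
        Ideal.Quotient.factor e y = 0 → x * y = 0 := by
      intro x y
      obtain ⟨a, rfl⟩ := Ideal.Quotient.mk_surjective x
      obtain ⟨b, rfl⟩ := Ideal.Quotient.mk_surjective y
      intro hx hy
      rw [Ideal.Quotient.factor_mk, Ideal.Quotient.eq_zero_iff_mem] at hx hy
      rw [← map_mul, Ideal.Quotient.eq_zero_iff_mem]
      have h1 := Ideal.mul_mem_mul hx hy
      rw [← Ideal.IsTwoSided.pow_add] at h1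
      exact Ideal.pow_le_pow_right (by omega) h1
    intro x y hx hy
    ext i l
    rw [Matrix.mul_apply, Matrix.zero_apply]
    exact Finset.sum_eq_zero fun m _ => key _ _ (congrFun (congrFun hx i) m)
      (congrFun (congrFun hy m) l)

/-- **ideals whose powers miss the elements of bounded degree** -/
theorem ideal_mem (hC : ClosedE C) (hsol : ∀ (S : Type) [Group S], Group.IsSolvable S → C S)
    (h : IsDegN deg) {j : R →+* D} (hj : LFrac j) (h0 : ∀ x, x ≠ 0 → 0 ≤ deg x)
    (J : Ideal R) [J.IsTwoSided] (hJ : C (M2 (R ⧸ J))ˣ)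
    (hn : ∀ n : ℕ, ∃ k : ℕ, ∀ x ∈ J ^ k, deg x ≤ n → x = 0) : C (M2 R)ˣ := by
  refine det_mem hC h hj h0 fun n => ?_
  obtain ⟨k, hk⟩ := hn n
  refine ⟨R ⧸ J ^ (k + 1), inferInstance, Ideal.Quotient.mk _, mat_pow hC hsol J hJ k,
    fun x hx hx0 => hk x ?_ hx⟩
  exact Ideal.pow_le_pow_right (Nat.le_succ k) (Ideal.Quotient.eq_zero_iff_mem.1 hx0)

end ring

section alg

/-- unit groups of finite dimensional algebras -/
theorem fdalg_mem (hC : ClosedE C) (K L : Type) [Field K] [Ring L] [Algebra K L]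
    [FiniteDimensional K L] (hK : ∀ N : ℕ, C (GL (Fin N) K)) : C Lˣ := by
  have b := Module.finBasis K L
  refine hC.base.of_injective _ _ (Units.map (Algebra.leftMulMatrix b).toMonoidHom) ?_
    (hK (Module.finrank K L))
  exact Units.map_injective (Algebra.leftMulMatrix_injective b)

variable {K R : Type} [Field K] [Ring R] [Algebra K R]

/-- finitely many elements are detected by one finite dimensional algebra -/
theorem one_alg [Nontrivial R]
    (hres : ∀ x : R, x ≠ 0 → ∃ (B : Type) (_ : Ring B) (_ : Algebra K B) (φ : R →ₐ[K] B),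
      FiniteDimensional K B ∧ φ x ≠ 0) (n : ℕ) :
    ∀ V : Submodule K R, FiniteDimensional K V → Module.finrank K V ≤ n →
      ∃ (B : Type) (_ : Ring B) (_ : Algebra K B) (φ : R →ₐ[K] B),
        FiniteDimensional K B ∧ ∀ x ∈ V, φ x = 0 → x = 0 := by
  induction n with
  | zero =>
    intro V hV hn
    obtain ⟨B, i1, i2, φ, hB, -⟩ := hres 1 one_ne_zero
    refine ⟨B, i1, i2, φ, hB, fun x hx _ => ?_⟩
    have h1 : V = ⊥ := Submodule.finrank_eq_zero.1 (Nat.le_zero.1 hn)
    rw [h1] at hx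
    exact hx
  | succ n ih =>
    intro V hV hn
    by_cases hV0 : V = ⊥
    · refine ih V hV ?_
      rw [hV0, finrank_bot]
      exact Nat.zero_le _
    obtain ⟨x, hx, hx0⟩ := V.ne_bot_iff.1 hV0
    obtain ⟨B, i1, i2, φ, hB, hφ⟩ := hres x hx0
    have hlt : V ⊓ LinearMap.ker φ.toLinearMap < V := by
      refine lt_of_le_of_ne inf_le_left fun e => hφ ?_
      rw [← e] at hx
      exact hx.2
    have hfd : FiniteDimensional K (V ⊓ LinearMap.ker φ.toLinearMap : Submodule K R) :=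
      Submodule.finiteDimensional_inf_left _ _
    have hlt' := Submodule.finrank_lt_finrank_of_lt hlt
    obtain ⟨B', i1', i2', φ', hB', hφ'⟩ := ih _ hfd (by omega)
    refine ⟨B × B', inferInstance, inferInstance, φ.prod φ', inferInstance, fun y hy hy0 => ?_⟩
    have h1 : φ y = 0 := congrArg Prod.fst hy0
    have h2 : φ' y = 0 := congrArg Prod.snd hy0
    exact hφ' y ⟨hy, h1⟩ h2

/-- **residually finite dimensional algebras** -/
theorem resfd_mem {D : Type} [DivisionRing D] {deg : R → WithBot ℤ} (hC : ClosedE C)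
    (hK : ∀ N : ℕ, C (GL (Fin N) K)) (h : IsDegN deg) {j : R →+* D} (hj : LFrac j)
    (h0 : ∀ x, x ≠ 0 → 0 ≤ deg x)
    (hfd : ∀ n : ℕ, ∃ V : Submodule K R, FiniteDimensional K V ∧ ∀ x, deg x ≤ n → x ∈ V)
    (hres : ∀ x : R, x ≠ 0 → ∃ (B : Type) (_ : Ring B) (_ : Algebra K B) (φ : R →ₐ[K] B),
      FiniteDimensional K B ∧ φ x ≠ 0) : C (M2 R)ˣ := by
  have hnt := hj.nt
  refine det_mem hC h hj h0 fun n => ?_
  obtain ⟨V, hV, hVn⟩ := hfd n
  obtain ⟨B, i1, i2, φ, hB, hφ⟩ := one_alg hres _ V hV le_rfl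
  exact ⟨B, i1, φ.toRingHom, fdalg_mem hC K (M2 B) hK, fun x hx hx0 => hφ x (hVn x hx) hx0⟩

end alg

end Run7.h909.NC
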