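import Pool.Agent.Run7.h909.NC.Sk

/-!
# Free associative algebras over integral domains

Owner helper909.
-/

set_option autoImplicit false
set_option linter.unusedSectionVars false

open Pool.Agent.Y110.FJ (ClosedE)

namespace Run7.h909.NC

open Run7.h909.GT Run7.h909.UG Matrix Run7.h909.GE

section free

variable (A X : Type) [CommRing A] [IsDomain A]

/-- polynomials in the variables `u (x, i)` -/
abbrev PL : Type := MvPolynomial (X × ℕ) A

/-- the field of fractions -/
abbrev FL : Type := FractionRing (PL A X)

/-- the shift -/
noncomputable def shP : PL A X →+* PL A X :=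
  (MvPolynomial.rename (fun p : X × ℕ => (p.1, p.2 + 1)) : PL A X →ₐ[A] PL A X).toRingHom

theorem shf_inj : Function.Injective (fun p : X × ℕ => (p.1, p.2 + 1)) := by
  rintro ⟨a, i⟩ ⟨b, j⟩ h
  simp only [Prod.mk.injEq, add_left_inj] at h
  rw [h.1, h.2]

theorem shP_inj : Function.Injective (shP A X) := MvPolynomial.rename_injective _ (shf_inj X)

/-- the shift of the field -/
noncomputable def shL : FL A X →+* FL A X :=
  IsFractionRing.map (A := PL A X) (B := PL A X) (K := FL A X) (L := FL A X) (shP_inj A X)

theorem shL_alg (p : PL A X) :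
    shL A X (algebraMap (PL A X) (FL A X) p) = algebraMap (PL A X) (FL A X) (shP A X p) := by
  unfold shL IsFractionRing.map
  exact IsLocalization.map_eq (M := nonZeroDivisors (PL A X)) (T := nonZeroDivisors (PL A X)) _ p

noncomputable instance actL : MulSemiringAction (Multiplicative ℕ) (FL A X) :=
  MulSemiringAction.compHom _ (powersHom (FL A X →+* FL A X) (shL A X))

theorem smul_eq (n : ℕ) (x : FL A X) : (Multiplicative.ofAdd n) • x = (shL A X)^[n] x := by
  show (powersHom (FL A X →+* FL A X) (shL A X) (Multiplicative.ofAdd n)) x = _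
  rw [powersHom_apply, toAdd_ofAdd]
  exact congrFun (RingHom.coe_pow (shL A X) n) x

variable {A X}

/-- the exponent of a word -/
noncomputable def mw : List X → (X × ℕ →₀ ℕ)
  | [] => 0
  | x :: w => Finsupp.single (x, 0) 1 + (mw w).mapDomain (fun p => (p.1, p.2 + 1))

open Classical in
theorem mw_apply (w : List X) (y : X) (i : ℕ) : mw w (y, i) = if w[i]? = some y then 1 else 0 := by
  induction w generalizing i with
  | nil => simp [mw]
  | cons x w ih =>
    rw [mw, Finsupp.add_apply]
    cases i with
    | zero =>
      rw [Finsupp.mapDomain_of_notMem_range, add_zero, Finsupp.single_apply]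
      · simp
      · rintro ⟨⟨a, b⟩, hab⟩
        simp at hab
    | succ i =>
      have h1 : (mw w).mapDomain (fun p : X × ℕ => (p.1, p.2 + 1)) (y, i + 1) = mw w (y, i) :=
        Finsupp.mapDomain_apply (shf_inj X) (mw w) (y, i)
      rw [h1, ih, Finsupp.single_apply, if_neg (by simp), zero_add]
      simp

theorem mw_inj : Function.Injective (mw : List X → (X × ℕ →₀ ℕ)) := by
  classical
  intro v w h
  apply List.ext_getElem?
  intro i
  have key : ∀ y, v[i]? = some y ↔ w[i]? = some y := by
    intro y
    have h1 := mw_apply v y i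
    have h2 := mw_apply w y i
    rw [h, h2] at h1
    by_cases h3 : w[i]? = some y
    · by_cases h4 : v[i]? = some y
      · exact ⟨fun _ => h3, fun _ => h4⟩
      · rw [if_pos h3, if_neg h4] at h1
        exact absurd h1 one_ne_zero
    · by_cases h4 : v[i]? = some y
      · rw [if_neg h3, if_pos h4] at h1
        exact absurd h1 zero_ne_one
      · exact ⟨fun e => absurd e h4, fun e => absurd e h3⟩
  cases hv : v[i]? with
  | none =>
    cases hw : w[i]? with
    | none => rfl
    | some y => rw [(key y).2 hw] at hv; exact absurd hv (by simp)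
  | some y => exact ((key y).1 hv).symm

variable (A X)

/-- the images of the generators -/
noncomputable def gx (x : X) : SkewPolynomial (FL A X) :=
  SkewPolynomial.monomial 1 (algebraMap (PL A X) (FL A X) (MvPolynomial.X (x, 0)))

theorem gx_lift (w : List X) : FreeMonoid.lift (gx A X) (FreeMonoid.ofList w) =
    SkewPolynomial.monomial w.length
      (algebraMap (PL A X) (FL A X) (MvPolynomial.monomial (mw w) 1)) := by
  induction w with
  | nil =>
    have h1 : (FreeMonoid.ofList ([] : List X)) = 1 := rfl
    rw [h1, map_one]
    show (1 : SkewPolynomial (FL A X)) = SkewPolynomial.monomial 0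
      (algebraMap (PL A X) (FL A X) (MvPolynomial.monomial 0 1))
    rw [show (MvPolynomial.monomial (0 : X × ℕ →₀ ℕ) (1 : A)) = 1 from rfl, map_one]
    exact SkewPolynomial.monomial_zero_one.symm
  | cons x w ih =>
    rw [FreeMonoid.ofList_cons, map_mul, FreeMonoid.lift_eval_of, ih, gx,
      SkewPolynomial.monomial_mul_monomial, SkewPolynomial.φ_iterate_apply, smul_eq,
      Function.iterate_one, shL_alg, ← map_mul]
    have h1 : shP A X (MvPolynomial.monomial (mw w) 1) =
        MvPolynomial.monomial ((mw w).mapDomain (fun p => (p.1, p.2 + 1))) 1 :=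
      MvPolynomial.rename_monomial _ _ _
    rw [h1, MvPolynomial.X, MvPolynomial.monomial_mul, one_mul, add_comm 1 w.length]
    rfl

/-- the homomorphism to the skew polynomial ring -/
noncomputable def psi : MonoidAlgebra A (FreeMonoid X) →+* SkewPolynomial (FL A X) :=
  MonoidAlgebra.liftNCRingHom
    ((SkewPolynomial.CRingHom : FL A X →+* SkewPolynomial (FL A X)).comp (algebraMap A (FL A X)))
    (FreeMonoid.lift (gx A X)) (by
      intro a w
      obtain ⟨v, rfl⟩ : ∃ v : List X, FreeMonoid.ofList v = w := ⟨FreeMonoid.toList w, rfl⟩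
      rw [gx_lift, RingHom.comp_apply]
      show SkewPolynomial.C _ * SkewPolynomial.monomial _ _ =
        SkewPolynomial.monomial _ _ * SkewPolynomial.C _
      rw [SkewPolynomial.C_mul_monomial, SkewPolynomial.monomial_mul_C,
        SkewPolynomial.φ_iterate_apply, smul_eq]
      have h1 : ∀ n : ℕ, (shL A X)^[n] (algebraMap A (FL A X) a) = algebraMap A (FL A X) a := by
        intro n
        induction n with
        | zero => rfl
        | succ n ih =>
          rw [Function.iterate_succ_apply']
          rw [ih, IsScalarTower.algebraMap_apply A (PL A X) (FL A X), shL_alg]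
          congr 1
          exact MvPolynomial.rename_C _ _
      rw [h1, mul_comm])

open Classical in
theorem psi_coeff (p : MonoidAlgebra A (FreeMonoid X)) (n : ℕ) :
    (psi A X p).coeff n = algebraMap (PL A X) (FL A X) (p.coeff.sum fun w a =>
      if (FreeMonoid.toList w).length = n then MvPolynomial.monomial (mw (FreeMonoid.toList w)) a
      else 0) := by
  induction p using MonoidAlgebra.induction_linear with
  | zero => simp
  | add p q hp hq =>
    rw [map_add, sk_coeff_add, hp, hq, ← map_add, MonoidAlgebra.coeff_add, Finsupp.sum_add_index']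
    · intro w
      split_ifs
      · rw [map_zero]
      · rfl
    · intro w a b
      split_ifs
      · rw [map_add]
      · rw [add_zero]
  | single w a =>
    rw [psi, MonoidAlgebra.liftNCRingHom_single, MonoidAlgebra.coeff_single,
      Finsupp.sum_single_index]
    · obtain ⟨v, rfl⟩ : ∃ v : List X, FreeMonoid.ofList v = w := ⟨FreeMonoid.toList w, rfl⟩
      rw [gx_lift, RingHom.comp_apply]
      show SkewPolynomial.coeff (SkewPolynomial.C _ * SkewPolynomial.monomial _ _) n = _
      rw [SkewPolynomial.C_mul_monomial, SkewPolynomial.coeff_monomial, FreeMonoid.toList_ofList]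
      split_ifs with h1
      · rw [IsScalarTower.algebraMap_apply A (PL A X) (FL A X), ← map_mul]
        congr 1
        rw [MvPolynomial.algebraMap_eq, MvPolynomial.C_mul_monomial, mul_one]
      · rw [map_zero]
    · split_ifs
      · rw [map_zero]
      · rfl

theorem psi_inj : Function.Injective (psi A X) := by
  classical
  rw [injective_iff_map_eq_zero]
  intro p hp
  apply MonoidAlgebra.ext
  apply Finsupp.ext
  intro w
  have h1 := psi_coeff A X p (FreeMonoid.toList w).length
  rw [hp, SkewPolynomial.coeff_zero] at h1
  have h2 := (map_eq_zero_iff _ (IsFractionRing.injective (PL A X) (FL A X))).1 h1.symm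
  have h3 := congrArg (MvPolynomial.coeff (mw (FreeMonoid.toList w))) h2
  rw [Finsupp.sum, MvPolynomial.coeff_sum, MvPolynomial.coeff_zero] at h3
  rw [Finset.sum_eq_single w] at h3
  · rw [if_pos rfl, MvPolynomial.coeff_monomial, if_pos rfl] at h3
    exact h3
  · intro v _ hv
    split_ifs with hl
    · rw [MvPolynomial.coeff_monomial, if_neg]
      intro e
      exact hv (FreeMonoid.toList.injective (mw_inj e))
    · exact MvPolynomial.coeff_zero _
  · intro hw
    rw [if_pos rfl, MvPolynomial.coeff_monomial, if_pos rfl]
    exact Finsupp.notMem_support_iff.1 hw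

variable {C : ∀ (G : Type) [Group G], Prop}

/-- **free associative algebras over integral domains** -/
theorem free_mem (hC : ClosedE C) (hsol : ∀ (S : Type) [Group S], Group.IsSolvable S → C S)
    (hA : C (M2 A)ˣ) : C (M2 (FreeAlgebra A X))ˣ := by
  obtain ⟨e, he⟩ : ∃ e : FreeAlgebra A X →+* MonoidAlgebra A (FreeMonoid X),
      e = (FreeAlgebra.equivMonoidAlgebraFreeMonoid : FreeAlgebra A X ≃ₐ[A] _).toRingEquiv.toRingHom :=
    ⟨_, rfl⟩
  have hinj : Function.Injective e := by
    rw [he]
    exact (FreeAlgebra.equivMonoidAlgebraFreeMonoid : FreeAlgebra A X ≃ₐ[A] _).injective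
  refine skew_emb_mem hC hsol ((psi A X).comp e) ((psi_inj A X).comp hinj)
    (FreeAlgebra.algebraMapInv (R := A) (X := X)).toRingHom ?_ hA
  have key : ∀ x : FreeAlgebra A X, (psi A X (e x)).coeff 0 =
      algebraMap A (FL A X) (FreeAlgebra.algebraMapInv x) := by
    intro x
    have hcc : ∀ y, (psi A X y).coeff 0 = ccHom (psi A X y) := fun _ => rfl
    induction x using FreeAlgebra.induction with
    | grade0 r =>
      have h1 : e (algebraMap A (FreeAlgebra A X) r) = MonoidAlgebra.single 1 r := by
        rw [he]
        exact (FreeAlgebra.equivMonoidAlgebraFreeMonoid : FreeAlgebra A X ≃ₐ[A] _).commutes r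
      rw [h1, psi, MonoidAlgebra.liftNCRingHom_single, map_one, mul_one,
        FreeAlgebra.algebraMap_leftInverse r]
      exact SkewPolynomial.coeff_C_zero
    | grade1 x =>
      have h1 : e (FreeAlgebra.ι A x) = MonoidAlgebra.single (FreeMonoid.of x) 1 := by
        rw [he]
        exact FreeAlgebra.lift_ι_apply _ _
      rw [h1, psi, MonoidAlgebra.liftNCRingHom_single, map_one, one_mul, FreeMonoid.lift_eval_of, gx,
        SkewPolynomial.coeff_monomial, if_neg one_ne_zero]
      have h2 : FreeAlgebra.algebraMapInv (FreeAlgebra.ι A x) = (0 : A) :=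
        FreeAlgebra.lift_ι_apply _ _
      rw [h2, map_zero]
    | mul a b ha hb =>
      rw [map_mul, map_mul, cc_mul, ha, hb, map_mul, map_mul]
    | add a b ha hb =>
      rw [map_add, map_add, sk_coeff_add, ha, hb, map_add, map_add]
  intro x hx
  have hx' : FreeAlgebra.algebraMapInv x = (0 : A) := hx
  rw [RingHom.comp_apply, key, hx', map_zero]

end free

end Run7.h909.NC
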