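import Pool.Agent.Run7.h909.NC.Alg

/-!
# Graded rings

Owner helper909.
-/

set_option autoImplicit false
set_option linter.unusedSectionVars false

open Pool.Agent.Y110.FJ (ClosedE)

namespace Run7.h909.NC

open Run7.h909.GT Run7.h909.UG Matrix

section coef

variable {R : Type} [Ring R] {c : ℕ → R →+ R}

/-- a family of coefficients as in a graded ring -/
structure Cf (c : ℕ → R →+ R) : Prop where
  fin : ∀ x, ∃ N, ∀ n, N < n → c n x = 0
  ext : ∀ x, (∀ n, c n x = 0) → x = 0
  mul : ∀ x y n, c n (x * y) = ∑ p ∈ Finset.HasAntidiagonal.antidiagonal n, c p.1 x * c p.2 y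
  dom : ∀ x y m n, c m x ≠ 0 → c n y ≠ 0 → c m x * c n y ≠ 0

open Classical in
/-- the degree -/
noncomputable def cdeg (c : ℕ → R →+ R) (x : R) : WithBot ℤ :=
  if x = 0 then ⊥ else (((sSup {n | c n x ≠ 0} : ℕ) : ℤ) : WithBot ℤ)

theorem cdeg_eq {x : R} {m : ℕ} (h1 : c m x ≠ 0) (h2 : ∀ n, m < n → c n x = 0) :
    cdeg c x = ((m : ℤ) : WithBot ℤ) := by
  have hx : x ≠ 0 := by
    rintro rfl
    exact h1 (map_zero _)
  unfold cdeg
  rw [if_neg hx]
  have h3 : sSup {n | c n x ≠ 0} = m := by
    apply le_antisymm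
    · refine csSup_le ⟨m, h1⟩ fun n hn => ?_
      by_contra hcon
      exact hn (h2 n (not_le.1 hcon))
    · refine le_csSup ⟨m, fun n hn => ?_⟩ h1
      by_contra hcon
      exact hn (h2 n (not_le.1 hcon))
  rw [h3]

theorem Cf.top (h : Cf c) {x : R} (hx : x ≠ 0) : ∃ m, c m x ≠ 0 ∧ ∀ n, m < n → c n x = 0 := by
  obtain ⟨N, hN⟩ := h.fin x
  obtain ⟨n0, hn0⟩ : ∃ n, c n x ≠ 0 := by
    by_contra hcon
    push Not at hcon
    exact hx (h.ext x hcon)
  have hne : ({n | c n x ≠ 0} : Set ℕ).Nonempty := ⟨n0, hn0⟩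
  have hbd : BddAbove ({n | c n x ≠ 0} : Set ℕ) := ⟨N, fun n hn => by
    by_contra hcon
    exact hn (hN n (not_le.1 hcon))⟩
  refine ⟨sSup {n | c n x ≠ 0}, Nat.sSup_mem hne hbd, fun n hn => ?_⟩
  by_contra hcon
  exact absurd (le_csSup hbd hcon) (not_le.2 hn)

theorem cdeg_le (h : Cf c) {x : R} {N : ℕ} :
    cdeg c x ≤ ((N : ℤ) : WithBot ℤ) ↔ ∀ n, N < n → c n x = 0 := by
  by_cases hx : x = 0
  · rw [hx]
    constructor
    · intro _ n _
      exact map_zero _
    · intro _
      unfold cdeg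
      rw [if_pos rfl]
      exact bot_le
  · obtain ⟨m, h1, h2⟩ := h.top hx
    rw [cdeg_eq h1 h2]
    constructor
    · intro hmn n hn
      refine h2 n ?_
      have : m ≤ N := by exact_mod_cast hmn
      omega
    · intro hall
      have : m ≤ N := by
        by_contra hcon
        exact h1 (hall m (not_le.1 hcon))
      exact_mod_cast this

theorem cf_isDeg (h : Cf c) : IsDegN (cdeg c) where
  bot x := by
    constructor
    · intro e
      by_contra hx
      obtain ⟨m, h1, h2⟩ := h.top hx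
      rw [cdeg_eq h1 h2] at e
      exact WithBot.coe_ne_bot e
    · intro e
      unfold cdeg
      rw [if_pos e]
  mul x y := by
    by_cases hx : x = 0
    · rw [hx, zero_mul]
      unfold cdeg
      rw [if_pos rfl, WithBot.bot_add]
    by_cases hy : y = 0
    · rw [hy, mul_zero]
      unfold cdeg
      rw [if_pos rfl, WithBot.add_bot]
    obtain ⟨m, h1, h2⟩ := h.top hx
    obtain ⟨n, h3, h4⟩ := h.top hy
    rw [cdeg_eq h1 h2, cdeg_eq h3 h4]
    have h5 : c (m + n) (x * y) = c m x * c n y := by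
      rw [h.mul]
      refine Finset.sum_eq_single (m, n) ?_ ?_
      · rintro ⟨i, k⟩ hik hne
        rw [Finset.HasAntidiagonal.mem_antidiagonal] at hik
        dsimp only at hik ⊢
        rcases lt_trichotomy i m with hi | hi | hi
        · rw [h4 k (by omega), mul_zero]
        · exfalso
          apply hne
          rw [hi, show k = n by omega]
        · rw [h2 i hi, zero_mul]
      · intro hmn
        exact absurd (Finset.HasAntidiagonal.mem_antidiagonal.2 rfl : (m, n) ∈ Finset.HasAntidiagonal.antidiagonal (m + n)) hmn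
    have h6 : ∀ k, m + n < k → c k (x * y) = 0 := by
      intro k hk
      rw [h.mul]
      refine Finset.sum_eq_zero ?_
      rintro ⟨i, l⟩ hil
      rw [Finset.HasAntidiagonal.mem_antidiagonal] at hil
      dsimp only at hil ⊢
      by_cases hi : m < i
      · rw [h2 i hi, zero_mul]
      · rw [h4 l (by omega), mul_zero]
    rw [cdeg_eq (by rw [h5]; exact h.dom _ _ _ _ h1 h3) h6]
    push_cast
    rfl
  add x y := by
    have key : ∀ (x : R) (k : ℕ), x ≠ 0 → ∃ N : ℕ, cdeg c x = ((N : ℤ) : WithBot ℤ) := by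
      intro x _ hx
      obtain ⟨m, h1, h2⟩ := h.top hx
      exact ⟨m, cdeg_eq h1 h2⟩
    by_cases hx : x = 0
    · rw [hx, zero_add]
      exact le_max_right _ _
    by_cases hy : y = 0
    · rw [hy, add_zero]
      exact le_max_left _ _
    obtain ⟨m, hm⟩ := key x 0 hx
    obtain ⟨n, hn⟩ := key y 0 hy
    have h1 := (cdeg_le h).1 hm.le
    have h2 := (cdeg_le h).1 hn.le
    have h3 : cdeg c (x + y) ≤ (((max m n : ℕ) : ℤ) : WithBot ℤ) := by
      rw [cdeg_le h]
      intro k hk
      rw [map_add, h1 k (lt_of_le_of_lt (le_max_left _ _) hk),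
        h2 k (lt_of_le_of_lt (le_max_right _ _) hk), add_zero]
    rw [hm, hn]
    refine h3.trans (le_of_eq ?_)
    rw [← WithBot.coe_max]
    congr 1
    push_cast
    rfl

theorem cdeg_nonneg (h : Cf c) {x : R} (hx : x ≠ 0) : 0 ≤ cdeg c x := by
  obtain ⟨m, h1, h2⟩ := h.top hx
  rw [cdeg_eq h1 h2]
  exact_mod_cast Nat.zero_le m

/-- powers of the ideal of the elements without constant coefficient -/
theorem low_pow (h : Cf c) (J : Ideal R) (hJ : ∀ x ∈ J, c 0 x = 0) (k : ℕ) :
    ∀ x ∈ J ^ k, ∀ i, i < k → c i x = 0 := by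
  induction k with
  | zero => exact fun x _ i hi => absurd hi (Nat.not_lt_zero _)
  | succ k ih =>
    intro x hx
    rw [Submodule.pow_succ] at hx
    refine Submodule.mul_induction_on hx ?_ ?_
    · intro a ha b hb i hi
      rw [h.mul]
      refine Finset.sum_eq_zero ?_
      rintro ⟨p, q⟩ hpq
      rw [Finset.HasAntidiagonal.mem_antidiagonal] at hpq
      dsimp only at hpq ⊢
      by_cases hp : p < k
      · rw [ih a ha p hp, zero_mul]
      · rw [show q = 0 by omega, hJ b hb, mul_zero]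
    · intro a b ha hb i hi
      rw [map_add, ha i hi, hb i hi, add_zero]

variable {C : ∀ (G : Type) [Group G], Prop}

/-- **rings with coefficients** -/
theorem cf_mem {D S : Type} [DivisionRing D] [Ring S] (hC : ClosedE C)
    (hsol : ∀ (S : Type) [Group S], Group.IsSolvable S → C S) (h : Cf c)
    {d : D → WithBot ℤ} (hd : IsDegN d) {j : R →+* D} (hj : Function.Injective j)
    (hdj : ∀ x, d (j x) = cdeg c x) (ε : R →+* S) (hε : ∀ x, ε x = 0 → c 0 x = 0)
    (hS : C (M2 S)ˣ) : C (M2 R)ˣ := by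
  refine det_mem' hC hd hj (fun x hx => ?_) fun n => ?_
  · rw [hdj]
    exact cdeg_nonneg h hx
  · have hJ : C (M2 (R ⧸ RingHom.ker ε))ˣ := by
      refine hC.base.of_injective _ _ (Units.map ((RingHom.kerLift ε).mapMatrix :
        M2 (R ⧸ RingHom.ker ε) →+* M2 S).toMonoidHom) ?_ hS
      refine Units.map_injective ?_
      intro x y hxy
      ext i k
      exact RingHom.kerLift_injective ε (congrFun (congrFun hxy i) k)
    refine ⟨R ⧸ (RingHom.ker ε) ^ (n + 1), inferInstance, Ideal.Quotient.mk _,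
      mat_pow hC hsol _ hJ n, fun x hx hx0 => ?_⟩
    rw [hdj] at hx
    rw [Ideal.Quotient.eq_zero_iff_mem] at hx0
    refine h.ext x fun i => ?_
    by_cases hi : i < n + 1
    · exact low_pow h _ (fun x hx => hε x hx) (n + 1) x hx0 i hi
    · exact (cdeg_le h).1 hx i (by omega)

end coef

end Run7.h909.NC
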