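import Pool.Agent.Run7.h909.NC.Grd
import Pool.Agent.Run7.h909.NC.FreeA
import Pool.Agent.Run7.h909.GT.Modz

/-!
# Graded Ore domains

Owner helper909.
-/

set_option autoImplicit false
set_option linter.unusedSectionVars false

open Pool.Agent.Y110.FJ (ClosedE)

namespace Run7.h909.NC

open Run7.h909.GT Run7.h909.UG Matrix DirectSum

section graded

variable {A σ : Type} [Ring A] [SetLike σ A] [AddSubgroupClass σ A] (𝒜 : ℕ → σ) [GradedRing 𝒜]

/-- the homogeneous components -/
def comp (n : ℕ) : A →+ A where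
  toFun x := (decompose 𝒜 x n : A)
  map_zero' := by
    rw [decompose_zero]
    rfl
  map_add' x y := by
    rw [decompose_add]
    rfl

theorem comp_cf [NoZeroDivisors A] : Cf (comp 𝒜) where
  fin x := by
    classical
    refine ⟨(decompose 𝒜 x).support.sup id, fun n hn => ?_⟩
    show (decompose 𝒜 x n : A) = 0
    have h1 : n ∉ (decompose 𝒜 x).support := fun h =>
      absurd (Finset.le_sup (f := id) h) (not_le.2 hn)
    rw [DFinsupp.notMem_support_iff.1 h1]
    rfl
  ext x hx := by
    have h1 : decompose 𝒜 x = 0 := by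
      apply DFinsupp.ext
      intro n
      exact Subtype.ext (hx n)
    have h2 := congrArg (decompose 𝒜).symm h1
    rwa [Equiv.symm_apply_apply, decompose_symm_zero] at h2
  mul x y n := by
    show (decompose 𝒜 (x * y) n : A) = _
    rw [decompose_mul, coe_mul_apply_eq_sum_antidiagonal]
    rfl
  dom x y m n h1 h2 := mul_ne_zero h1 h2

variable {C : ∀ (G : Type) [Group G], Prop}

open scoped nonZeroDivisors in
/-- **graded Ore domains** -/
theorem graded_mem (hC : ClosedE C) (hsol : ∀ (S : Type) [Group S], Group.IsSolvable S → C S)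
    [Nontrivial A] [NoZeroDivisors A] [OreLocalization.OreSet A⁰] (h : C (M2 (𝒜 0))ˣ) :
    C (M2 A)ˣ := by
  obtain ⟨d, hd, hdj⟩ := ext_deg (cf_isDeg (comp_cf 𝒜)) (ore_frac A)
  refine cf_mem hC hsol (comp_cf 𝒜) hd (ore_frac A).inj hdj (GradedRing.projZeroRingHom' 𝒜) ?_ h
  intro x hx
  exact congrArg Subtype.val hx

end graded

end Run7.h909.NC
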