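import Pool.Agent.Run7.h909.NC.Alg
import Pool.Agent.Run7.h909.GE.Skew

/-!
# Rings that embed in skew polynomial rings over division rings

Owner helper909.
-/

set_option autoImplicit false
set_option linter.unusedSectionVars false

open Pool.Agent.Y110.FJ (ClosedE)

namespace Run7.h909.NC

open Run7.h909.GT Run7.h909.UG Matrix Run7.h909.GE

section skew

variable {K : Type} [DivisionRing K] [MulSemiringAction (Multiplicative ℕ) K]

theorem sk_mul_ne {p q : SkewPolynomial K} (hp : p ≠ 0) (hq : q ≠ 0) : p * q ≠ 0 := by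
  intro e
  have h1 := coeff_mul_top p q
  rw [e, SkewPolynomial.coeff_zero] at h1
  exact mul_ne_zero (coeff_sdeg hp) (phi_ne (coeff_sdeg hq)) h1.symm

instance : NoZeroDivisors (SkewPolynomial K) where
  eq_zero_or_eq_zero_of_mul_eq_zero := by
    intro a b hab
    by_contra hcon
    push Not at hcon
    exact sk_mul_ne hcon.1 hcon.2 hab

theorem sk_ore (n : ℕ) : ∀ f g : SkewPolynomial K, g ≠ 0 → sdeg g ≤ n →
    ∃ a b : SkewPolynomial K, a ≠ 0 ∧ a * f = b * g := by
  have hnt : Nontrivial (SkewPolynomial K) := inferInstance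
  induction n using Nat.strong_induction_on with
  | _ n ih =>
    intro f g hg hn
    obtain ⟨q, hq⟩ := skew_div f g hg
    rcases hq with hq | hq
    · exact ⟨1, q, one_ne_zero, by rw [one_mul, sub_eq_zero.1 hq]⟩
    · by_cases hr : f - q * g = 0
      · exact ⟨1, q, one_ne_zero, by rw [one_mul, sub_eq_zero.1 hr]⟩
      · obtain ⟨a, b, ha, hab⟩ := ih (sdeg (f - q * g)) (by omega) g (f - q * g) hr le_rfl
        have hb : b ≠ 0 := by
          rintro rfl
          rw [zero_mul] at hab
          exact sk_mul_ne ha hg hab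
        refine ⟨b, b * q + a, hb, ?_⟩
        rw [add_mul, hab, mul_sub, mul_assoc, add_sub_cancel]

open scoped nonZeroDivisors in
/-- the Ore condition -/
noncomputable instance : OreLocalization.OreSet (SkewPolynomial K)⁰ where
  ore_right_cancel r₁ r₂ s h := ⟨1, by
    rw [mul_right_cancel₀ (nonZeroDivisors.coe_ne_zero s) h]⟩
  oreNum r s := (sk_ore _ r s (nonZeroDivisors.coe_ne_zero s) le_rfl).choose_spec.choose
  oreDenom r s := ⟨(sk_ore _ r s (nonZeroDivisors.coe_ne_zero s) le_rfl).choose,
    mem_nonZeroDivisors_of_ne_zero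
      (sk_ore _ r s (nonZeroDivisors.coe_ne_zero s) le_rfl).choose_spec.choose_spec.1⟩
  ore_eq r s := (sk_ore _ r s (nonZeroDivisors.coe_ne_zero s) le_rfl).choose_spec.choose_spec.2

open Classical in
/-- the degree -/
noncomputable def skDeg (p : SkewPolynomial K) : WithBot ℤ :=
  if p = 0 then ⊥ else ((sdeg p : ℤ) : WithBot ℤ)

theorem skDeg_ne {p : SkewPolynomial K} (hp : p ≠ 0) : skDeg p = ((sdeg p : ℤ) : WithBot ℤ) := by
  unfold skDeg
  rw [if_neg hp]

theorem skDeg_zero : skDeg (0 : SkewPolynomial K) = ⊥ := by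
  unfold skDeg
  rw [if_pos rfl]

theorem skDeg_isDeg : IsDegN (skDeg : SkewPolynomial K → WithBot ℤ) where
  bot x := by
    constructor
    · intro e
      by_contra hx
      rw [skDeg_ne hx] at e
      exact WithBot.coe_ne_bot e
    · rintro rfl
      exact skDeg_zero
  mul x y := by
    by_cases hx : x = 0
    · rw [hx, zero_mul, skDeg_zero, WithBot.bot_add]
    by_cases hy : y = 0
    · rw [hy, mul_zero, skDeg_zero, WithBot.add_bot]
    rw [skDeg_ne hx, skDeg_ne hy, skDeg_ne (sk_mul_ne hx hy), sdeg_mul hx hy]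
    push_cast
    rfl
  add x y := by
    by_cases hx : x = 0
    · rw [hx, zero_add]
      exact le_max_right _ _
    by_cases hy : y = 0
    · rw [hy, add_zero]
      exact le_max_left _ _
    by_cases hxy : x + y = 0
    · rw [hxy, skDeg_zero]
      exact bot_le
    rw [skDeg_ne hx, skDeg_ne hy, skDeg_ne hxy, ← WithBot.coe_max, WithBot.coe_le_coe]
    exact_mod_cast sdeg_add_le x y

/-- the constant coefficient as a homomorphism of rings -/
def ccHom : SkewPolynomial K →+* K where
  toFun p := p.coeff 0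
  map_zero' := rfl
  map_one' := by
    have h1 := SkewPolynomial.coeff_C_zero (a := (1 : K))
    have h2 : (SkewPolynomial.C (1 : K) : SkewPolynomial K) = 1 := by
      rw [← SkewPolynomial.CRingHom_eq_C, map_one]
    rw [h2] at h1
    exact h1
  map_add' p q := sk_coeff_add p q 0
  map_mul' p q := cc_mul p q

/-- low coefficients of powers -/
theorem sk_low {R : Type} [Ring R] (ψ : R →+* SkewPolynomial K) (J : Ideal R)
    (hJ : ∀ x ∈ J, (ψ x).coeff 0 = 0) (k : ℕ) :
    ∀ x ∈ J ^ k, ∀ i, i < k → (ψ x).coeff i = 0 := by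
  induction k with
  | zero => exact fun x _ i hi => absurd hi (Nat.not_lt_zero _)
  | succ k ih =>
    intro x hx
    rw [Submodule.pow_succ] at hx
    refine Submodule.mul_induction_on hx ?_ ?_
    · intro a ha b hb i hi
      rw [map_mul, sk_coeff_mul]
      refine Finset.sum_eq_zero fun p hp => Finset.sum_eq_zero fun q hq => ?_
      split_ifs with hpq
      · exfalso
        by_cases hpk : p < k
        · exact SkewPolynomial.mem_support_iff.1 hp (ih a ha p hpk)
        · have hq0 : q = 0 := by omega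
          rw [hq0] at hq
          exact SkewPolynomial.mem_support_iff.1 hq (hJ b hb)
      · rfl
    · intro a b ha hb i hi
      rw [map_add, sk_coeff_add, ha i hi, hb i hi, add_zero]

variable {C : ∀ (G : Type) [Group G], Prop}

/-- **rings that embed in skew polynomial rings** -/
theorem skew_emb_mem (hC : ClosedE C) (hsol : ∀ (S : Type) [Group S], Group.IsSolvable S → C S)
    {R S : Type} [Ring R] [Ring S] (ψ : R →+* SkewPolynomial K) (hψ : Function.Injective ψ)
    (ε : R →+* S) (hε : ∀ x, ε x = 0 → (ψ x).coeff 0 = 0) (hS : C (M2 S)ˣ) : C (M2 R)ˣ := by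
  obtain ⟨d, hd, hdj⟩ := ext_deg (skDeg_isDeg (K := K)) (ore_frac (SkewPolynomial K))
  refine det_mem' hC hd (j := (OreLocalization.numeratorRingHom).comp ψ)
    ((ore_frac (SkewPolynomial K)).inj.comp hψ) (fun x hx => ?_) fun n => ?_
  · rw [RingHom.comp_apply, hdj, skDeg_ne (fun e => hx ((map_eq_zero_iff ψ hψ).1 e))]
    exact_mod_cast Nat.zero_le _
  · have hJ : C (M2 (R ⧸ RingHom.ker ε))ˣ := by
      refine hC.base.of_injective _ _ (Units.map ((RingHom.kerLift ε).mapMatrix :
        M2 (R ⧸ RingHom.ker ε) →+* M2 S).toMonoidHom) ?_ hS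
      refine Units.map_injective ?_
      intro x y hxy
      ext i k
      exact RingHom.kerLift_injective ε (congrFun (congrFun hxy i) k)
    refine ⟨R ⧸ (RingHom.ker ε) ^ (n + 1), inferInstance, Ideal.Quotient.mk _,
      mat_pow hC hsol _ hJ n, fun x hx hx0 => ?_⟩
    rw [Ideal.Quotient.eq_zero_iff_mem] at hx0
    by_contra hne
    have hne' : ψ x ≠ 0 := fun e => hne ((map_eq_zero_iff ψ hψ).1 e)
    rw [RingHom.comp_apply, hdj, skDeg_ne hne'] at hx
    have h1 : sdeg (ψ x) ≤ n := by exact_mod_cast hx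
    exact coeff_sdeg hne' (sk_low ψ _ (fun x hx => hε x hx) (n + 1) x hx0 _ (by omega))

end skew

end Run7.h909.NC
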