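import Pool.Agent.Run7.h909.NC.Dv

/-!
# Invertible matrices over division rings with a degree function

Owner helper909.
-/

set_option autoImplicit false
set_option linter.unusedSectionVars false

open Pool.Agent.Y110.FJ (ClosedE)

namespace Run7.h909.NC

open Run7.h909.GT Run7.h909.UG Matrix

section dv

variable {D : Type} [DivisionRing D] {deg : D → WithBot ℤ}

/-- two by two matrices -/
abbrev M2 (R : Type) : Type := Matrix (Fin 2) (Fin 2) R

theorem mv0 {R : Type} [Ring R] (g : M2 R) (u : Fin 2 → R) :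
    (g *ᵥ u) 0 = g 0 0 * u 0 + g 0 1 * u 1 := by
  rw [mulVec, dotProduct, Fin.sum_univ_two]

theorem mv1 {R : Type} [Ring R] (g : M2 R) (u : Fin 2 → R) :
    (g *ᵥ u) 1 = g 1 0 * u 0 + g 1 1 * u 1 := by
  rw [mulVec, dotProduct, Fin.sum_univ_two]

/-- the matrix shifts `dl` by an integer -/
def Sh (deg : D → WithBot ℤ) (g : M2 D) : Prop :=
  ∃ n : ℤ, ∀ u w : Fin 2 → D, dl deg (g *ᵥ u) (g *ᵥ w) = n + dl deg u w

theorem Sh.mul {g k : M2 D} (hg : Sh deg g) (hk : Sh deg k) : Sh deg (g * k) := by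
  obtain ⟨n, hn⟩ := hg
  obtain ⟨m, hm⟩ := hk
  refine ⟨n + m, fun u w => ?_⟩
  rw [← mulVec_mulVec, ← mulVec_mulVec, hn, hm, WithBot.coe_add]
  exact (add_assoc _ _ _).symm

variable (h : IsDegN deg)
include h

theorem sh_low (a : D) : Sh deg !![1, 0; a, 1] := by
  refine ⟨0, fun u w => ?_⟩
  have e0 : ∀ u : Fin 2 → D, (!![1, 0; a, 1] *ᵥ u) 0 = u 0 := by
    intro u
    rw [mv0]
    simp
  have e1 : ∀ u : Fin 2 → D, (!![1, 0; a, 1] *ᵥ u) 1 = a * u 0 + u 1 := by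
    intro u
    rw [mv1]
    simp
  rw [WithBot.coe_zero, zero_add]
  by_cases hu : u 0 = 0
  · rw [dl_left ((e0 u).trans hu), dl_left hu, e0, e1, hu, mul_zero, zero_add]
  · have hu' : (!![1, 0; a, 1] *ᵥ u) 0 ≠ 0 := by
      rw [e0]
      exact hu
    rw [dl_ne hu', dl_ne hu, e0, e1, e0, e1]
    congr 2
    rw [add_mul, mul_assoc a, mul_inv_cancel₀ hu, mul_one, add_mul]
    abel

theorem sh_diag {a b : D} (ha : a ≠ 0) (hb : b ≠ 0) : Sh deg !![a, 0; 0, b] := by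
  obtain ⟨n, hn⟩ := WithBot.ne_bot_iff_exists.1 (fun e => ha ((h.bot _).1 e))
  obtain ⟨m, hm⟩ := WithBot.ne_bot_iff_exists.1 (fun e => hb ((h.bot _).1 e))
  refine ⟨n + m, fun u w => ?_⟩
  have e0 : ∀ u : Fin 2 → D, (!![a, 0; 0, b] *ᵥ u) 0 = a * u 0 := by
    intro u
    rw [mv0]
    simp
  have e1 : ∀ u : Fin 2 → D, (!![a, 0; 0, b] *ᵥ u) 1 = b * u 1 := by
    intro u
    rw [mv1]
    simp
  rw [WithBot.coe_add, hn, hm]
  by_cases hu : u 0 = 0
  · have hu' : (!![a, 0; 0, b] *ᵥ u) 0 = 0 := by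
      rw [e0, hu, mul_zero]
    rw [dl_left hu', dl_left hu, e0, e1, h.mul, h.mul]
    ac_rfl
  · have hu' : (!![a, 0; 0, b] *ᵥ u) 0 ≠ 0 := by
      rw [e0]
      exact mul_ne_zero ha hu
    rw [dl_ne hu', dl_ne hu, e0, e1, e0, e1, h.mul]
    have h1 : b * w 1 - b * u 1 * (a * u 0)⁻¹ * (a * w 0) = b * (w 1 - u 1 * (u 0)⁻¹ * w 0) := by
      rw [_root_.mul_inv_rev, mul_sub]
      congr 1
      rw [mul_assoc (b * u 1), mul_assoc (u 0)⁻¹, inv_mul_cancel_left₀ ha, mul_assoc, mul_assoc]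
    rw [h1, h.mul]
    ac_rfl

theorem sh_swap : Sh deg !![0, 1; 1, 0] := by
  refine ⟨0, fun u w => ?_⟩
  have e0 : ∀ u : Fin 2 → D, (!![0, 1; 1, 0] *ᵥ u) 0 = u 1 := by
    intro u
    rw [mv0]
    simp
  have e1 : ∀ u : Fin 2 → D, (!![0, 1; 1, 0] *ᵥ u) 1 = u 0 := by
    intro u
    rw [mv1]
    simp
  rw [WithBot.coe_zero, zero_add]
  by_cases hu1 : u 1 = 0
  · rw [dl_left ((e0 u).trans hu1), e1, e0]
    by_cases hu : u 0 = 0
    · rw [dl_left hu, hu, hu1, h.zero, WithBot.bot_add, WithBot.bot_add]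
    · rw [dl_ne hu, hu1, zero_mul, zero_mul, sub_zero]
  · have hu1' : (!![0, 1; 1, 0] *ᵥ u) 0 ≠ 0 := by
      rw [e0]
      exact hu1
    rw [dl_ne hu1', e0, e1, e0, e1]
    by_cases hu : u 0 = 0
    · rw [dl_left hu, hu, zero_mul, zero_mul, sub_zero]
    · rw [dl_ne hu]
      have h1 : w 1 - u 1 * (u 0)⁻¹ * w 0 =
          -(u 1 * ((u 0)⁻¹ * (w 0 - u 0 * (u 1)⁻¹ * w 1))) := by
        rw [mul_sub, mul_sub, ← mul_assoc (u 0)⁻¹, ← mul_assoc (u 0)⁻¹ (u 0), inv_mul_cancel₀ hu,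
          one_mul, ← mul_assoc (u 1) (u 1)⁻¹, mul_inv_cancel₀ hu1, one_mul, neg_sub, mul_assoc]
      rw [h1, h.neg, h.mul, h.mul]
      have h2 := inv_deg h hu
      calc deg (u 1) + deg (w 0 - u 0 * (u 1)⁻¹ * w 1)
          = 0 + (deg (u 1) + deg (w 0 - u 0 * (u 1)⁻¹ * w 1)) := (zero_add _).symm
        _ = (deg (u 0) + deg (u 0)⁻¹) + (deg (u 1) + deg (w 0 - u 0 * (u 1)⁻¹ * w 1)) := by
            rw [h2]
        _ = _ := by ac_rfl

theorem sh_up (b : D) : Sh deg !![1, b; 0, 1] := by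
  have h1 : (!![1, b; 0, 1] : M2 D) = !![0, 1; 1, 0] * !![1, 0; b, 1] * !![0, 1; 1, 0] := by
    ext i j
    fin_cases i <;> fin_cases j <;> simp [Matrix.mul_apply, Fin.sum_univ_two]
  rw [h1]
  exact ((sh_swap h).mul (sh_low h b)).mul (sh_swap h)

theorem sh_of_ne (g : (M2 D)ˣ) (hp : g.1 0 0 ≠ 0) : Sh deg g.1 := by
  have hs : g.1 1 1 - g.1 1 0 * (g.1 0 0)⁻¹ * g.1 0 1 ≠ 0 := by
    intro e
    have h1 : ![-(g.1 1 0 * (g.1 0 0)⁻¹), 1] ᵥ* g.1 = 0 := by
      funext j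
      rw [vecMul, dotProduct, Fin.sum_univ_two]
      fin_cases j
      · show -(g.1 1 0 * (g.1 0 0)⁻¹) * g.1 0 0 + 1 * g.1 1 0 = 0
        rw [neg_mul, inv_mul_cancel_right₀ hp, one_mul, neg_add_cancel]
      · show -(g.1 1 0 * (g.1 0 0)⁻¹) * g.1 0 1 + 1 * g.1 1 1 = 0
        rw [neg_mul, one_mul, neg_add_eq_sub, e]
    have h2 := congrArg (fun v => v ᵥ* (g⁻¹).1) h1
    simp only [vecMul_vecMul, Units.mul_inv, vecMul_one, zero_vecMul] at h2
    exact one_ne_zero (congrFun h2 1)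
  have h1 : g.1 = !![1, 0; g.1 1 0 * (g.1 0 0)⁻¹, 1] *
      !![g.1 0 0, 0; 0, g.1 1 1 - g.1 1 0 * (g.1 0 0)⁻¹ * g.1 0 1] *
      !![1, (g.1 0 0)⁻¹ * g.1 0 1; 0, 1] := by
    ext i j
    fin_cases i <;> fin_cases j
    · simp [Matrix.mul_apply, Fin.sum_univ_two]
    · simp [Matrix.mul_apply, Fin.sum_univ_two, hp]
    · simp [Matrix.mul_apply, Fin.sum_univ_two, hp]
    · simp [Matrix.mul_apply, Fin.sum_univ_two, hp, mul_assoc]
  rw [h1]
  exact ((sh_low h _).mul (sh_diag h hp hs)).mul (sh_up h _)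

theorem sh_unit (g : (M2 D)ˣ) : Sh deg g.1 := by
  by_cases hp : g.1 0 0 = 0
  · obtain ⟨s, hs⟩ : ∃ s : (M2 D)ˣ, s.1 = !![0, 1; 1, 0] := by
      have h1 : (!![0, 1; 1, 0] : M2 D) * !![0, 1; 1, 0] = 1 := by
        ext i j
        fin_cases i <;> fin_cases j <;> simp [Matrix.mul_apply, Fin.sum_univ_two]
      exact ⟨⟨_, _, h1, h1⟩, rfl⟩
    have hr : g.1 1 0 ≠ 0 := by
      intro hr
      have h1 : g.1 *ᵥ ![1, 0] = 0 := by
        funext i
        rw [mulVec, dotProduct, Fin.sum_univ_two]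
        fin_cases i
        · show g.1 0 0 * 1 + g.1 0 1 * 0 = 0
          rw [hp, zero_mul, mul_zero, add_zero]
        · show g.1 1 0 * 1 + g.1 1 1 * 0 = 0
          rw [hr, zero_mul, mul_zero, add_zero]
      have h2 := congrArg (fun v => (g⁻¹).1 *ᵥ v) h1
      simp only [mulVec_mulVec, Units.inv_mul, one_mulVec, mulVec_zero] at h2
      exact one_ne_zero (congrFun h2 0)
    have h1 : Sh deg (s * g).1 := by
      refine sh_of_ne h (s * g) ?_
      rw [Units.val_mul, hs, Matrix.mul_apply, Fin.sum_univ_two]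
      simpa using hr
    have h2 : g.1 = !![0, 1; 1, 0] * (s * g).1 := by
      rw [← hs, Units.val_mul, ← mul_assoc]
      have h3 : s.1 * s.1 = 1 := by
        rw [hs]
        ext i j
        fin_cases i <;> fin_cases j <;> simp [Matrix.mul_apply, Fin.sum_univ_two]
      rw [h3, one_mul]
    rw [h2]
    exact (sh_swap h).mul h1
  · exact sh_of_ne h g hp

/-- the unit vectors -/
def ee (D : Type) [DivisionRing D] (j : Fin 2) : Fin 2 → D := fun i => if i = j then 1 else 0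

omit h in
theorem mv_ee (g : M2 D) (i j : Fin 2) : (g *ᵥ ee D j) i = g i j := by
  rw [mulVec, dotProduct]
  unfold ee
  simp

/-- the degree of the determinant -/
noncomputable def chi (deg : D → WithBot ℤ) (g : (M2 D)ˣ) : ℤ :=
  (dl deg (g.1 *ᵥ ee D 0) (g.1 *ᵥ ee D 1)).unbotD 0

theorem dl_ee : dl deg (ee D 0) (ee D 1) = 0 := by
  have h0 : ee D 0 0 ≠ 0 := by
    show (if (0 : Fin 2) = 0 then (1 : D) else 0) ≠ 0
    rw [if_pos rfl]
    exact one_ne_zero
  rw [dl_ne h0]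
  show deg (if (0 : Fin 2) = 0 then (1 : D) else 0) + deg ((if (1 : Fin 2) = 1 then (1 : D) else 0) -
    _ * _ * (if (0 : Fin 2) = 1 then (1 : D) else 0)) = 0
  rw [if_pos rfl, if_pos rfl, if_neg (by decide), mul_zero, sub_zero, h.one, add_zero]

theorem chi_spec (g : (M2 D)ˣ) (u w : Fin 2 → D) :
    dl deg (g.1 *ᵥ u) (g.1 *ᵥ w) = chi deg g + dl deg u w := by
  obtain ⟨n, hn⟩ := sh_unit h g
  have h1 : chi deg g = n := by
    unfold chi
    rw [hn, dl_ee h, add_zero]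
    rfl
  rw [h1, hn]

theorem chi_mul (g k : (M2 D)ˣ) : chi deg (g * k) = chi deg g + chi deg k := by
  have h1 := chi_spec h (g * k) (ee D 0) (ee D 1)
  rw [dl_ee h, add_zero, Units.val_mul, ← mulVec_mulVec, ← mulVec_mulVec, chi_spec h g,
    chi_spec h k, dl_ee h, add_zero, ← WithBot.coe_add, WithBot.coe_inj] at h1
  exact h1.symm

/-- the largest degree -/
noncomputable def WN (deg : D → WithBot ℤ) (g k : (M2 D)ˣ) : WithBot ℤ :=
  Finset.univ.sup fun p : Fin 2 × Fin 2 => dl deg (g.1 *ᵥ ee D p.1) (k.1 *ᵥ ee D p.2)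

omit h in
theorem le_WN (g k : (M2 D)ˣ) (p : Fin 2 × Fin 2) :
    dl deg (g.1 *ᵥ ee D p.1) (k.1 *ᵥ ee D p.2) ≤ WN deg g k :=
  Finset.le_sup (f := fun p : Fin 2 × Fin 2 => dl deg (g.1 *ᵥ ee D p.1) (k.1 *ᵥ ee D p.2))
    (Finset.mem_univ p)

omit h in
theorem WN_ex (g k : (M2 D)ˣ) : ∃ p : Fin 2 × Fin 2,
    WN deg g k = dl deg (g.1 *ᵥ ee D p.1) (k.1 *ᵥ ee D p.2) := by
  obtain ⟨p, -, hp⟩ := Finset.exists_mem_eq_sup Finset.univ ⟨(0, 0), Finset.mem_univ _⟩
    (fun p : Fin 2 × Fin 2 => dl deg (g.1 *ᵥ ee D p.1) (k.1 *ᵥ ee D p.2))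
  exact ⟨p, hp⟩

theorem WN_four (a b c e : (M2 D)ˣ) :
    WN deg a b + WN deg c e ≤ max (WN deg a c + WN deg b e) (WN deg a e + WN deg b c) := by
  obtain ⟨p, hp⟩ := WN_ex (deg := deg) a b
  obtain ⟨q, hq⟩ := WN_ex (deg := deg) c e
  rw [hp, hq]
  refine (ptol h _ _ _ _).trans (max_le_max ?_ ?_)
  · exact add_le_add (le_WN a c (p.1, q.1)) (le_WN b e (p.2, q.2))
  · exact add_le_add (le_WN a e (p.1, q.2)) (le_WN b c (p.2, q.1))

theorem WN_symm (g k : (M2 D)ˣ) : WN deg g k = WN deg k g := by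
  have key : ∀ g k : (M2 D)ˣ, WN deg g k ≤ WN deg k g := by
    intro g k
    refine Finset.sup_le fun p _ => ?_
    rw [dl_symm h]
    exact le_WN k g (p.2, p.1)
  exact le_antisymm (key g k) (key k g)

theorem WN_mul (a g k : (M2 D)ˣ) : WN deg (a * g) (a * k) = chi deg a + WN deg g k := by
  have key : ∀ p : Fin 2 × Fin 2, dl deg ((a * g).1 *ᵥ ee D p.1) ((a * k).1 *ᵥ ee D p.2) =
      chi deg a + dl deg (g.1 *ᵥ ee D p.1) (k.1 *ᵥ ee D p.2) := by
    intro p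
    rw [Units.val_mul, Units.val_mul, ← mulVec_mulVec, ← mulVec_mulVec, chi_spec h]
  apply le_antisymm
  · refine Finset.sup_le fun p _ => ?_
    rw [key]
    exact add_le_add le_rfl (le_WN _ _ _)
  · obtain ⟨p, hp⟩ := WN_ex (deg := deg) g k
    rw [hp, ← key]
    exact le_WN _ _ _

theorem WN_one (g : (M2 D)ˣ) (i j : Fin 2) : deg (g.1 i j) ≤ WN deg 1 g := by
  have e0 : ee D 0 0 = 1 := if_pos rfl
  have e1 : ee D 0 1 = 0 := if_neg (by decide)
  have e2 : ee D 1 0 = 0 := if_neg (by decide)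
  have e3 : ee D 1 1 = 1 := if_pos rfl
  fin_cases i
  · have h1 := le_WN (deg := deg) 1 g (1, j)
    rw [Units.val_one, one_mulVec] at h1
    dsimp only at h1
    rw [dl_left e2, e3, h.one, zero_add, mv_ee] at h1
    exact h1
  · have h1 := le_WN (deg := deg) 1 g (0, j)
    rw [Units.val_one, one_mulVec] at h1
    dsimp only at h1
    rw [dl_ne (by rw [e0]; exact one_ne_zero), e0, e1, zero_mul, zero_mul, sub_zero, h.one,
      zero_add, mv_ee] at h1
    exact h1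

theorem WN_one_one : WN deg (1 : (M2 D)ˣ) 1 = 0 := by
  apply le_antisymm
  · refine Finset.sup_le fun p _ => ?_
    rw [Units.val_one, one_mulVec, one_mulVec]
    obtain ⟨i, j⟩ := p
    have e0 : ee D 0 0 = 1 := if_pos rfl
    have e1 : ee D 0 1 = 0 := if_neg (by decide)
    have e2 : ee D 1 0 = 0 := if_neg (by decide)
    have e3 : ee D 1 1 = 1 := if_pos rfl
    have h01 := dl_ee h
    fin_cases i <;> fin_cases j
    · show dl deg (ee D 0) (ee D 0) ≤ 0
      rw [dl_ne (by rw [e0]; exact one_ne_zero), e0, e1, zero_mul, zero_mul, sub_zero, h.zero,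
        WithBot.add_bot]
      exact bot_le
    · exact (dl_ee h).le
    · show dl deg (ee D 1) (ee D 0) ≤ 0
      rw [dl_symm h]
      exact (dl_ee h).le
    · show dl deg (ee D 1) (ee D 1) ≤ 0
      rw [dl_left e2, e2, h.zero, WithBot.add_bot]
      exact bot_le
  · have h1 := le_WN (deg := deg) (1 : (M2 D)ˣ) 1 (0, 1)
    rw [Units.val_one, one_mulVec, one_mulVec] at h1
    rw [← dl_ee h]
    exact h1

theorem WN_self (g : (M2 D)ˣ) : WN deg g g = chi deg g := by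
  have h1 := WN_mul h g 1 1
  rw [mul_one, WN_one_one h, add_zero] at h1
  exact h1

theorem WN_ne (g k : (M2 D)ˣ) : WN deg g k ≠ ⊥ := by
  intro e
  have h2 := WN_four h g g k k
  rw [e, WN_self h, WN_self h, WithBot.bot_add, max_self, le_bot_iff, ← WithBot.coe_add] at h2
  exact WithBot.coe_ne_bot h2

/-- the integer -/
noncomputable def wN (deg : D → WithBot ℤ) (g k : (M2 D)ˣ) : ℤ := (WN deg g k).unbotD 0

theorem coe_wN (g k : (M2 D)ˣ) : ((wN deg g k : ℤ) : WithBot ℤ) = WN deg g k := by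
  obtain ⟨n, hn⟩ := WithBot.ne_bot_iff_exists.1 (WN_ne h g k)
  unfold wN
  rw [← hn]
  rfl

/-- the distance -/
noncomputable def dN (deg : D → WithBot ℤ) (g k : (M2 D)ˣ) : ℤ :=
  2 * wN deg g k - chi deg g - chi deg k

theorem dN_zh : ZH (dN (D := D) deg) where
  self g := by
    have h1 : wN deg g g = chi deg g := by
      rw [← WithBot.coe_inj, coe_wN h, WN_self h]
    unfold dN
    rw [h1]
    ring
  symm g k := by
    have h1 : wN deg g k = wN deg k g := by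
      unfold wN
      rw [WN_symm h]
    unfold dN
    rw [h1]
    ring
  four a b c e := by
    have h1 := WN_four h a b c e
    simp only [← coe_wN h, ← WithBot.coe_add] at h1
    rw [← WithBot.coe_max, WithBot.coe_le_coe] at h1
    unfold dN
    omega
  even a b c := by
    unfold dN
    omega

theorem dN_mul (a g k : (M2 D)ˣ) : dN deg (a * g) (a * k) = dN deg g k := by
  have key : wN deg (a * g) (a * k) = chi deg a + wN deg g k := by
    rw [← WithBot.coe_inj, WithBot.coe_add, coe_wN h, coe_wN h, WN_mul h]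
  unfold dN
  rw [key, chi_mul h, chi_mul h]
  ring

theorem le_dN (g : (M2 D)ˣ) (i j k l : Fin 2) :
    deg (g.1 i j) + deg ((g⁻¹).1 k l) ≤ dN deg 1 g := by
  have h1 := WN_one h g i j
  have h2 := WN_one h g⁻¹ k l
  have h3 := WN_mul h g 1 g⁻¹
  rw [mul_one, mul_inv_cancel, WN_symm h] at h3
  have h4 : (chi deg g : WithBot ℤ) + deg ((g⁻¹).1 k l) ≤ WN deg 1 g := by
    rw [h3]
    exact add_le_add le_rfl h2
  have h5 := add_le_add h1 h4
  have h6 : chi deg (1 : (M2 D)ˣ) = 0 := by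
    have := chi_mul h (1 : (M2 D)ˣ) 1
    rw [mul_one] at this
    omega
  rw [← coe_wN h] at h5
  by_cases hb1 : deg (g.1 i j) = ⊥
  · rw [hb1, WithBot.bot_add]
    exact bot_le
  by_cases hb2 : deg ((g⁻¹).1 k l) = ⊥
  · rw [hb2, WithBot.add_bot]
    exact bot_le
  obtain ⟨m, hm⟩ := WithBot.ne_bot_iff_exists.1 hb1
  obtain ⟨n, hn⟩ := WithBot.ne_bot_iff_exists.1 hb2
  rw [← hm, ← hn] at h5 ⊢
  rw [← WithBot.coe_add, ← WithBot.coe_add, ← WithBot.coe_add, WithBot.coe_le_coe] at h5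
  rw [← WithBot.coe_add, WithBot.coe_le_coe]
  unfold dN
  omega

variable {C : ∀ (G : Type) [Group G], Prop}

/-- **groups of matrices over division rings with a degree function** -/
theorem nc_rep (hC : ClosedE C) {G : Type} [Group G] (ρ : G →* (M2 D)ˣ)
    (hP : ∀ n : ℕ, ∃ (P : Type) (_ : Group P) (f : G →* P), C P ∧ ∀ g : G,
      (∀ i j k l, deg ((ρ g).1 i j) + deg ((ρ g⁻¹).1 k l) ≤ n) → f g = 1 → g = 1) : C G := by
  let _ : MulAction G (M2 D)ˣ := MulAction.compHom _ ρ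
  have hs : ∀ (g : G) (x : (M2 D)ˣ), g • x = ρ g * x := fun _ _ => rfl
  refine length_mem hC (G := G) (S := (M2 D)ˣ) (dN_zh h) ?_ 1 ?_
  · intro g x y
    rw [hs, hs, dN_mul h]
  · intro n
    obtain ⟨P, _, f, hCP, hf⟩ := hP n
    refine ⟨P, _, f, hCP, fun g hg hfg => hf g (fun i j k l => ?_) hfg⟩
    rw [hs, mul_one] at hg
    rw [map_inv]
    refine (le_dN h (ρ g) i j k l).trans ?_
    exact_mod_cast hg

end dv

end Run7.h909.NC
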